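import Pool.Agent.N264.FLR.Scale

/-!
The critical case: `F(σ) = 2 ν - 2 ν (1 + α) / log (K / σ)` (helper264).
-/

set_option autoImplicit false

open MeasureTheory Set Filter Topology

namespace Pool.Agent.N264.FLR

/-- The critical inflow. -/
noncomputable def cf (ν α K S σ : ℝ) : ℝ :=
  2 * ν - 2 * ν * (1 + α) / Real.log (K / min σ S)

variable {ν α K S : ℝ}

lemma lg_ge (hS : 0 < S) (hK : S * Real.exp 1 ≤ K) {σ : ℝ} (h0 : 0 < σ) (h1 : σ ≤ S) :
    1 ≤ Real.log (K / σ) := by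
  rw [Real.le_log_iff_exp_le (by
    have : 0 < K := (mul_pos hS (Real.exp_pos 1)).trans_le hK
    positivity), le_div_iff₀ h0]
  have : Real.exp 1 * σ ≤ Real.exp 1 * S := by gcongr
  linarith

lemma K_pos (hS : 0 < S) (hK : S * Real.exp 1 ≤ K) : 0 < K :=
  (mul_pos hS (Real.exp_pos 1)).trans_le hK

lemma cf_cont (hS : 0 < S) (hK : S * Real.exp 1 ≤ K) : ContinuousOn (cf ν α K S) (Ioi 0) := by
  have hK0 := K_pos hS hK
  unfold cf
  have h1 : ContinuousOn (fun σ : ℝ => min σ S) (Ioi 0) := by fun_prop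
  have h2 : ∀ σ ∈ Ioi (0 : ℝ), 0 < min σ S := fun σ hσ => lt_min hσ hS
  have h3 : ContinuousOn (fun σ : ℝ => Real.log (K / min σ S)) (Ioi 0) :=
    (continuousOn_const.div h1 fun σ hσ => (h2 σ hσ).ne').log fun σ hσ =>
      (div_pos hK0 (h2 σ hσ)).ne'
  refine continuousOn_const.sub (continuousOn_const.div h3 fun σ hσ => ?_)
  have := lg_ge hS hK (h2 σ hσ) (min_le_right _ _)
  linarith

lemma lg_hd (hK : 0 < K) {σ : ℝ} (hσ : 0 < σ) :
    HasDerivAt (fun σ => Real.log (K / σ)) (-(1 / σ)) σ := by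
  have h1 : HasDerivAt (fun σ : ℝ => K / σ) (K * -(σ ^ 2)⁻¹) σ := by
    simpa [div_eq_mul_inv] using (hasDerivAt_inv hσ.ne').const_mul K
  refine (h1.log (div_pos hK hσ).ne').congr_deriv ?_
  field_simp

/-- The scale density in the critical case. -/
lemma sd_crit (hν : 0 < ν) (hS : 0 < S) (hK : S * Real.exp 1 ≤ K) :
    ∃ c : ℝ, 0 < c ∧ ∀ σ ∈ Ioc 0 S,
      sd ν (cf ν α K S) σ = c / (σ * Real.log (K / σ) ^ (1 + α)) := by
  have hK0 := K_pos hS hK
  obtain ⟨g, hg⟩ : ∃ g : ℝ → ℝ, g = fun σ =>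
      sd ν (cf ν α K S) σ * (σ * Real.log (K / σ) ^ (1 + α)) := ⟨_, rfl⟩
  have hgd : ∀ σ ∈ Ioc 0 S, HasDerivWithinAt g 0 (Ioc 0 S) σ := by
    intro σ hσ
    have hL := lg_ge hS hK hσ.1 hσ.2
    have hL0 : 0 < Real.log (K / σ) := by linarith
    have h1 := sd_hd (σ := σ) hν (cf_cont (ν := ν) (α := α) hS hK) hσ.1
    have h2 := (lg_hd hK0 hσ.1).rpow_const (p := 1 + α) (Or.inl hL0.ne')
    have h3 := h1.mul ((hasDerivAt_id σ).mul h2)
    rw [hg]
    refine (h3.congr_deriv ?_).hasDerivWithinAt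
    have e1 : cf ν α K S σ = 2 * ν - 2 * ν * (1 + α) / Real.log (K / σ) := by
      unfold cf
      rw [min_eq_left hσ.2]
    rw [e1]
    obtain ⟨L, hLe⟩ : ∃ L : ℝ, L = Real.log (K / σ) := ⟨_, rfl⟩
    rw [← hLe] at hL0 ⊢
    have e2 : L ^ (1 + α) = L ^ (1 + α - 1) * L := by
      rw [← Real.rpow_add_one hL0.ne']
      congr 1
      ring
    have hσ0 := hσ.1
    simp only [id, Pi.mul_apply]
    rw [← hLe, e2]
    field_simp
    ring
  have hconst : ∀ σ ∈ Ioc 0 S, g σ = g S := by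
    intro σ hσ
    exact (convex_Ioc 0 S).is_const_of_fderivWithin_eq_zero (𝕜 := ℝ)
      (fun x hx => (hgd x hx).differentiableWithinAt)
      (fun x hx => by
        have hu : UniqueDiffWithinAt ℝ (Ioc 0 S) x := (uniqueDiffOn_Ioc 0 S) x hx
        have := (hgd x hx).hasFDerivWithinAt.fderivWithin hu
        rw [this]
        ext
        simp) hσ ⟨hS, le_rfl⟩
  have hLS := lg_ge hS hK hS le_rfl
  refine ⟨g S, ?_, fun σ hσ => ?_⟩
  · rw [hg]
    have := sd_pos (ν := ν) (F := cf ν α K S) S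
    have h2 : 0 < Real.log (K / S) ^ (1 + α) := Real.rpow_pos_of_pos (by linarith) _
    positivity
  · rw [← hconst σ hσ, hg]
    have hL := lg_ge hS hK hσ.1 hσ.2
    have h2 : 0 < Real.log (K / σ) ^ (1 + α) := Real.rpow_pos_of_pos (by linarith) _
    have hσ0 := hσ.1
    field_simp

/-- Continuity at the axis. -/
lemma lgp_cont (hα : 0 < α) (hS : 0 < S) (hK : S * Real.exp 1 ≤ K) :
    ContinuousOn (fun σ => Real.log (K / σ) ^ (-α)) (Icc 0 S) := by
  have hK0 := K_pos hS hK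
  intro σ hσ
  rcases eq_or_lt_of_le hσ.1 with h0 | h0
  · rw [← h0, ContinuousWithinAt]
    have e0 : Real.log (K / 0) ^ (-α) = 0 := by
      rw [div_zero, Real.log_zero, Real.zero_rpow (by linarith)]
    rw [e0]
    have h1 : Tendsto (fun σ : ℝ => Real.log (K / σ)) (𝓝[>] 0) atTop :=
      Real.tendsto_log_atTop.comp ((tendsto_inv_nhdsGT_zero (𝕜 := ℝ)).const_mul_atTop hK0)
    have h2 : Tendsto (fun σ : ℝ => Real.log (K / σ) ^ (-α)) (𝓝[>] 0) (𝓝 0) :=
      (tendsto_rpow_neg_atTop hα).comp h1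
    have h3 : 𝓝[Icc 0 S] (0 : ℝ) ≤ 𝓝[≥] 0 := nhdsWithin_mono _ fun x hx => hx.1
    refine Tendsto.mono_left ?_ h3
    rw [← Ioi_insert, nhdsWithin_insert, tendsto_sup]
    refine ⟨?_, h2⟩
    rw [tendsto_pure_left]
    intro s hs
    simp only [e0]
    exact mem_of_mem_nhds hs
  · have hL := lg_ge hS hK h0 hσ.2
    exact (((lg_hd hK0 h0).rpow_const (p := -α) (Or.inl (by linarith))).continuousAt).continuousWithinAt

/-- An elementary bound. -/
lemma pow_le_exp {s x : ℝ} (hs : 0 < s) (hx : 0 ≤ x) :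
    x ^ s ≤ (2 * s) ^ s * Real.exp (x / 2) := by
  have h1 : x / (2 * s) ≤ Real.exp (x / (2 * s)) := by
    have := Real.add_one_le_exp (x / (2 * s))
    linarith
  have h2 : x ≤ 2 * s * Real.exp (x / (2 * s)) := by
    rwa [div_le_iff₀' (by positivity)] at h1
  calc x ^ s ≤ (2 * s * Real.exp (x / (2 * s))) ^ s := Real.rpow_le_rpow hx h2 hs.le
    _ = (2 * s) ^ s * Real.exp (x / (2 * s)) ^ s :=
      Real.mul_rpow (by positivity) (Real.exp_pos _).le
    _ = (2 * s) ^ s * Real.exp (x / 2) := by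
      rw [← Real.exp_mul]
      congr 2
      field_simp

/-- The critical case: accessibility and bounds. -/
theorem crit (hν : 0 < ν) (hα : 0 < α) (hS : 0 < S) (hK : S * Real.exp 1 ≤ K) :
    Acc ν (cf ν α K S) S ∧ ∀ σ ∈ Ioc 0 S,
      sc ν (cf ν α K S) σ / sc ν (cf ν α K S) S
        = (Real.log (K / S) / Real.log (K / σ)) ^ α ∧
      et ν (cf ν α K S) S σ ≤ (2 + 2 * α) ^ (1 + α) * √(K * S) / (2 * α * ν)
        * (Real.log (K / S) / Real.log (K / σ)) ^ α := by
  have hK0 := K_pos hS hK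
  obtain ⟨F, hFe⟩ : ∃ F, F = cf ν α K S := ⟨_, rfl⟩
  have hF : ContinuousOn F (Ioi 0) := by rw [hFe]; exact cf_cont hS hK
  obtain ⟨c, hc, hsd⟩ := sd_crit (α := α) hν hS hK
  rw [← hFe] at hsd ⊢
  -- the primitive of the scale density
  obtain ⟨P, hP⟩ : ∃ P : ℝ → ℝ, P = fun σ => c / α * Real.log (K / σ) ^ (-α) := ⟨_, rfl⟩
  have hPc : ContinuousOn P (Icc 0 S) := by
    rw [hP]
    exact continuousOn_const.mul (lgp_cont hα hS hK)
  have hPd : ∀ σ ∈ Ioo 0 S, HasDerivAt P (sd ν F σ) σ := by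
    intro σ hσ
    have hL := lg_ge hS hK hσ.1 hσ.2.le
    have hL0 : 0 < Real.log (K / σ) := by linarith
    have h1 := ((lg_hd hK0 hσ.1).rpow_const (p := -α) (Or.inl hL0.ne')).const_mul (c / α)
    rw [hP]
    refine h1.congr_deriv ?_
    rw [hsd σ ⟨hσ.1, hσ.2.le⟩, show -α - 1 = -(1 + α) by ring, Real.rpow_neg hL0.le]
    have h2 : 0 < Real.log (K / σ) ^ (1 + α) := Real.rpow_pos_of_pos hL0 _
    have hσ0 := hσ.1
    field_simp
  have hsdI : IntervalIntegrable (sd ν F) volume 0 S := by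
    apply intervalIntegral.intervalIntegrable_deriv_of_nonneg (g := P)
    · rwa [uIcc_of_le hS.le]
    · rw [min_eq_left hS.le, max_eq_right hS.le]
      exact hPd
    · intro x _
      exact (sd_pos x).le
  have hP0 : P 0 = 0 := by
    rw [hP]
    simp only [div_zero, Real.log_zero]
    rw [Real.zero_rpow (by linarith), mul_zero]
  have hsc : ∀ σ ∈ Icc 0 S, sc ν F σ = P σ := by
    intro σ hσ
    unfold sc
    rw [intervalIntegral.integral_eq_sub_of_hasDerivAt_of_le hσ.1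
      (hPc.mono (Icc_subset_Icc_right hσ.2)) (fun x hx => hPd x ⟨hx.1, hx.2.trans_le hσ.2⟩)
      (int_sub hsdI hσ.1 hσ.2), hP0, sub_zero]
  -- the speed
  obtain ⟨Q, hQ⟩ : ∃ Q : ℝ, Q = (2 + 2 * α) ^ (1 + α) * √K / (4 * ν * c) := ⟨_, rfl⟩
  have hQ0 : 0 < Q := by rw [hQ]; positivity
  have hm : ∀ q ∈ Ioc 0 S, 1 / (4 * ν * q * sd ν F q) ≤ Q * q ^ (-(1 / 2) : ℝ) := by
    intro q hq
    have hL := lg_ge hS hK hq.1 hq.2
    have hL0 : 0 < Real.log (K / q) := by linarith
    have h2 : 0 < Real.log (K / q) ^ (1 + α) := Real.rpow_pos_of_pos hL0 _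
    have hq0 := hq.1
    have e1 : 1 / (4 * ν * q * sd ν F q) = Real.log (K / q) ^ (1 + α) / (4 * ν * c) := by
      rw [hsd q hq]
      field_simp
    have h3 := pow_le_exp (s := 1 + α) (by linarith) hL0.le
    have e2 : Real.exp (Real.log (K / q) / 2) = √K * q ^ (-(1 / 2) : ℝ) := by
      rw [show Real.log (K / q) / 2 = Real.log (K / q) * (1 / 2) by ring,
        ← Real.rpow_def_of_pos (div_pos hK0 hq0), Real.div_rpow hK0.le hq0.le,
        Real.rpow_neg hq0.le, Real.sqrt_eq_rpow]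
      rfl
    rw [e1, hQ]
    rw [e2] at h3
    rw [show 2 * (1 + α) = 2 + 2 * α by ring] at h3
    calc Real.log (K / q) ^ (1 + α) / (4 * ν * c)
        ≤ (2 + 2 * α) ^ (1 + α) * (√K * q ^ (-(1 / 2) : ℝ)) / (4 * ν * c) := by gcongr
      _ = _ := by ring
  have hqI : IntervalIntegrable (fun q : ℝ => q ^ (-(1 / 2) : ℝ)) volume 0 S :=
    intervalIntegral.intervalIntegrable_rpow' (by norm_num)
  have hqi : ∫ q in (0 : ℝ)..S, q ^ (-(1 / 2) : ℝ) = 2 * √S := by
    rw [integral_rpow (Or.inl (by norm_num))]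
    rw [show (-(1 / 2) + 1 : ℝ) = 1 / 2 by norm_num, Real.zero_rpow (by norm_num),
      Real.sqrt_eq_rpow]
    ring
  have hspb : ∀ r ∈ Ioc 0 S, sp ν F S r ≤ Q * (2 * √S) := by
    intro r hr
    unfold sp
    calc ∫ q in r..S, 1 / (4 * ν * q * sd ν F q) ≤ ∫ q in r..S, Q * q ^ (-(1 / 2) : ℝ) := by
          refine intervalIntegral.integral_mono_on hr.2 (ioi_int (c1 hν hF) hr.1 hS) ?_ ?_
          · refine (hqI.mono_set ?_).const_mul Q
            rw [uIcc_of_le hr.2, uIcc_of_le hS.le]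
            exact Icc_subset_Icc_left hr.1.le
          · intro q hq
            exact hm q ⟨hr.1.trans_le hq.1, hq.2⟩
      _ ≤ ∫ q in (0 : ℝ)..S, Q * q ^ (-(1 / 2) : ℝ) := by
          refine intervalIntegral.integral_mono_interval hr.1.le hr.2 le_rfl ?_ (hqI.const_mul Q)
          rw [EventuallyLE, ae_restrict_iff' measurableSet_Ioc]
          refine Eventually.of_forall fun q hq => ?_
          have : 0 < q := hq.1
          simp only [Pi.zero_apply]
          positivity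
      _ = Q * (2 * √S) := by
          rw [intervalIntegral.integral_const_mul, hqi]
  have hA : Acc ν F S := by
    unfold Acc
    rw [intervalIntegrable_iff, uIoc_of_le hS.le] at hsdI ⊢
    refine (hsdI.const_mul (Q * (2 * √S))).mono' ?_ ?_
    · exact ((c2 hν hF hS).mono fun x hx => hx.1).aestronglyMeasurable measurableSet_Ioc
    · rw [ae_restrict_iff' measurableSet_Ioc]
      refine Eventually.of_forall fun r hr => ?_
      have h3 := sd_pos (ν := ν) (F := F) r
      have h4 := sp_nonneg (F := F) hν hr.1 hr.2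
      have h5 := hspb r hr
      rw [Real.norm_eq_abs, abs_of_nonneg (mul_nonneg h3.le h4), mul_comm]
      gcongr
  refine ⟨hA, fun σ hσ => ?_⟩
  have hL := lg_ge hS hK hσ.1 hσ.2
  have hLS := lg_ge hS hK hS le_rfl
  have hratio : sc ν F σ / sc ν F S = (Real.log (K / S) / Real.log (K / σ)) ^ α := by
    rw [hsc σ ⟨hσ.1.le, hσ.2⟩, hsc S ⟨hS.le, le_rfl⟩, hP]
    simp only
    rw [Real.rpow_neg (by linarith), Real.rpow_neg (by linarith),
      Real.div_rpow (by linarith) (by linarith)]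
    have h1 : 0 < Real.log (K / S) ^ α := Real.rpow_pos_of_pos (by linarith) _
    have h2 : 0 < Real.log (K / σ) ^ α := Real.rpow_pos_of_pos (by linarith) _
    field_simp
  refine ⟨hratio, ?_⟩
  have h1 : et ν F S σ ≤ Q * (2 * √S) * sc ν F σ := by
    unfold et sc
    rw [← intervalIntegral.integral_const_mul, intervalIntegral.integral_of_le hσ.1.le,
      intervalIntegral.integral_of_le hσ.1.le]
    refine setIntegral_mono_on ?_ ?_ measurableSet_Ioc ?_
    · have := int_sub hA hσ.1.le hσ.2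
      rwa [intervalIntegrable_iff, uIoc_of_le hσ.1.le] at this
    · have := (int_sub hsdI hσ.1.le hσ.2).const_mul (Q * (2 * √S))
      rwa [intervalIntegrable_iff, uIoc_of_le hσ.1.le] at this
    · intro r hr
      have h3 := sd_pos (ν := ν) (F := F) r
      have h5 := hspb r ⟨hr.1, hr.2.trans hσ.2⟩
      rw [mul_comm]
      gcongr
  have hscS : sc ν F S ≤ c / α := by
    rw [hsc S ⟨hS.le, le_rfl⟩, hP]
    have h2 : Real.log (K / S) ^ (-α) ≤ 1 := Real.rpow_le_one_of_one_le_of_nonpos hLS (by linarith)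
    have h3 : 0 < c / α := by positivity
    simp only
    nlinarith
  have hscS0 : 0 < sc ν F S := sc_pos hν hF hS hA hS le_rfl
  have h2 : sc ν F σ = (Real.log (K / S) / Real.log (K / σ)) ^ α * sc ν F S := by
    rw [← hratio]
    field_simp
  obtain ⟨X, hX⟩ : ∃ X, X = (Real.log (K / S) / Real.log (K / σ)) ^ α := ⟨_, rfl⟩
  have hX0 : 0 < X := by
    rw [hX]
    apply Real.rpow_pos_of_pos
    apply div_pos <;> linarith
  rw [← hX] at h2 ⊢
  calc et ν F S σ ≤ Q * (2 * √S) * (X * sc ν F S) := by rw [← h2]; exact h1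
    _ ≤ Q * (2 * √S) * (X * (c / α)) := by gcongr
    _ = (2 + 2 * α) ^ (1 + α) * √(K * S) / (2 * α * ν) * X := by
      rw [hQ, Real.sqrt_mul hK0.le]
      field_simp
      norm_num

end Pool.Agent.N264.FLR
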