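import Mathlib

/-!
Scale function and mean absorption time of the one-dimensional diffusion with generator
`4 ν σ ∂² + 2 F ∂` (helper264).
-/

set_option autoImplicit false

open MeasureTheory Set Filter Topology

namespace Pool.Agent.N264.FLR

/-- The scale density `exp (-∫_1^σ F(q) / (2 ν q) dq)`. -/
noncomputable def sd (ν : ℝ) (F : ℝ → ℝ) (σ : ℝ) : ℝ :=
  Real.exp (-∫ q in (1 : ℝ)..σ, F q / (2 * ν * q))

/-- The speed of `(r, S)`. -/
noncomputable def sp (ν : ℝ) (F : ℝ → ℝ) (S r : ℝ) : ℝ :=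
  ∫ q in r..S, 1 / (4 * ν * q * sd ν F q)

/-- The scale function. -/
noncomputable def sc (ν : ℝ) (F : ℝ → ℝ) (σ : ℝ) : ℝ := ∫ r in (0 : ℝ)..σ, sd ν F r

/-- The mean absorption time. -/
noncomputable def et (ν : ℝ) (F : ℝ → ℝ) (S σ : ℝ) : ℝ :=
  ∫ r in (0 : ℝ)..σ, sd ν F r * sp ν F S r

/-- Feller's condition. -/
def Acc (ν : ℝ) (F : ℝ → ℝ) (S : ℝ) : Prop :=
  IntervalIntegrable (fun r => sd ν F r * sp ν F S r) volume 0 S

variable {ν : ℝ} {F : ℝ → ℝ} {S : ℝ}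

lemma ioi_int {g : ℝ → ℝ} (hg : ContinuousOn g (Ioi 0)) {a b : ℝ} (ha : 0 < a) (hb : 0 < b) :
    IntervalIntegrable g volume a b := by
  apply ContinuousOn.intervalIntegrable
  refine hg.mono fun x hx => ?_
  rcases le_total a b with h | h
  · rw [uIcc_of_le h] at hx
    exact ha.trans_le hx.1
  · rw [uIcc_of_ge h] at hx
    exact hb.trans_le hx.1

lemma ioi_meas {g : ℝ → ℝ} (hg : ContinuousOn g (Ioi 0)) {σ : ℝ} (hσ : 0 < σ) :
    StronglyMeasurableAtFilter g (𝓝 σ) volume :=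
  hg.stronglyMeasurableAtFilter isOpen_Ioi σ hσ

lemma ioi_cont {g : ℝ → ℝ} (hg : ContinuousOn g (Ioi 0)) {σ : ℝ} (hσ : 0 < σ) :
    ContinuousAt g σ := hg.continuousAt (Ioi_mem_nhds hσ)

lemma int_hd {g : ℝ → ℝ} (hg : ContinuousOn g (Ioi 0)) {a σ : ℝ}
    (hi : IntervalIntegrable g volume a σ) (hσ : 0 < σ) :
    HasDerivAt (fun x => ∫ q in a..x, g q) (g σ) σ :=
  intervalIntegral.integral_hasDerivAt_right hi (ioi_meas hg hσ) (ioi_cont hg hσ)

lemma sd_pos (σ : ℝ) : 0 < sd ν F σ := Real.exp_pos _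

lemma c0 (hν : 0 < ν) (hF : ContinuousOn F (Ioi 0)) :
    ContinuousOn (fun q => F q / (2 * ν * q)) (Ioi 0) := by
  refine hF.div (by fun_prop) fun q hq => ?_
  have : 0 < q := hq
  positivity

lemma sd_hd (hν : 0 < ν) (hF : ContinuousOn F (Ioi 0)) {σ : ℝ} (hσ : 0 < σ) :
    HasDerivAt (sd ν F) (sd ν F σ * -(F σ / (2 * ν * σ))) σ :=
  (int_hd (c0 hν hF) (ioi_int (c0 hν hF) one_pos hσ) hσ).neg.exp

lemma sd_cont (hν : 0 < ν) (hF : ContinuousOn F (Ioi 0)) : ContinuousOn (sd ν F) (Ioi 0) :=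
  fun _ h => (sd_hd hν hF h).continuousAt.continuousWithinAt

lemma c1 (hν : 0 < ν) (hF : ContinuousOn F (Ioi 0)) :
    ContinuousOn (fun q => 1 / (4 * ν * q * sd ν F q)) (Ioi 0) := by
  refine continuousOn_const.div ((by fun_prop : ContinuousOn (fun q => 4 * ν * q) (Ioi 0)).mul
    (sd_cont hν hF)) fun q hq => ?_
  have h1 : 0 < q := hq
  have h2 := sd_pos (ν := ν) (F := F) q
  positivity

lemma sp_hd (hν : 0 < ν) (hF : ContinuousOn F (Ioi 0)) (hS : 0 < S) {σ : ℝ} (hσ : 0 < σ) :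
    HasDerivAt (sp ν F S) (-(1 / (4 * ν * σ * sd ν F σ))) σ := by
  have h1 := int_hd (c1 hν hF) (ioi_int (c1 hν hF) hS hσ) hσ
  have h2 : sp ν F S = fun r => -∫ q in S..r, 1 / (4 * ν * q * sd ν F q) := by
    funext r
    unfold sp
    rw [intervalIntegral.integral_symm]
  rw [h2]
  exact h1.neg

lemma sp_cont (hν : 0 < ν) (hF : ContinuousOn F (Ioi 0)) (hS : 0 < S) :
    ContinuousOn (sp ν F S) (Ioi 0) :=
  fun _ h => (sp_hd hν hF hS h).continuousAt.continuousWithinAt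

lemma sp_nonneg (hν : 0 < ν) {r : ℝ} (hr : 0 < r) (hrS : r ≤ S) : 0 ≤ sp ν F S r := by
  unfold sp
  refine intervalIntegral.integral_nonneg hrS fun q hq => ?_
  have h1 : 0 < q := hr.trans_le hq.1
  have h2 := sd_pos (ν := ν) (F := F) q
  positivity

lemma sp_pos (hν : 0 < ν) (hF : ContinuousOn F (Ioi 0)) {r : ℝ} (hr : 0 < r) (hrS : r < S) :
    0 < sp ν F S r := by
  unfold sp
  refine intervalIntegral.intervalIntegral_pos_of_pos_on (ioi_int (c1 hν hF) hr (hr.trans hrS))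
    (fun q hq => ?_) hrS
  have h1 : 0 < q := hr.trans hq.1
  have h2 := sd_pos (ν := ν) (F := F) q
  positivity

lemma sp_anti (hν : 0 < ν) (hF : ContinuousOn F (Ioi 0)) {r r' : ℝ} (hr : 0 < r) (hrr : r ≤ r')
    (hS : r' ≤ S) : sp ν F S r' ≤ sp ν F S r := by
  have h1 : sp ν F S r = (∫ q in r..r', 1 / (4 * ν * q * sd ν F q)) + sp ν F S r' := by
    unfold sp
    rw [intervalIntegral.integral_add_adjacent_intervals
      (ioi_int (c1 hν hF) hr (hr.trans_le hrr))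
      (ioi_int (c1 hν hF) (hr.trans_le hrr) ((hr.trans_le hrr).trans_le hS))]
  have h2 : 0 ≤ ∫ q in r..r', 1 / (4 * ν * q * sd ν F q) := by
    refine intervalIntegral.integral_nonneg hrr fun q hq => ?_
    have h1 : 0 < q := hr.trans_le hq.1
    have h2 := sd_pos (ν := ν) (F := F) q
    positivity
  linarith

/-- The scale density is integrable at the axis. -/
lemma sd_int (hν : 0 < ν) (hF : ContinuousOn F (Ioi 0)) (hS : 0 < S) (hA : Acc ν F S) :
    IntervalIntegrable (sd ν F) volume 0 S := by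
  have hS2 : 0 < S / 2 := by positivity
  have hp : 0 < sp ν F S (S / 2) := sp_pos hν hF hS2 (by linarith)
  have h1 : IntervalIntegrable (sd ν F) volume 0 (S / 2) := by
    have h2 : IntervalIntegrable (fun r => sd ν F r * sp ν F S r) volume 0 (S / 2) :=
      hA.mono_set (by rw [uIcc_of_le hS2.le, uIcc_of_le hS.le]; exact Icc_subset_Icc_right (by linarith))
    rw [intervalIntegrable_iff, uIoc_of_le hS2.le] at h2 ⊢
    refine (h2.const_mul (1 / sp ν F S (S / 2))).mono' ?_ ?_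
    · exact ((sd_cont hν hF).mono fun x hx => hx.1).aestronglyMeasurable measurableSet_Ioc
    · rw [ae_restrict_iff' measurableSet_Ioc]
      refine Eventually.of_forall fun r hr => ?_
      have h3 := sd_pos (ν := ν) (F := F) r
      have h4 := sp_anti hν hF hr.1 hr.2 (by linarith : S / 2 ≤ S)
      rw [Real.norm_eq_abs, abs_of_pos h3]
      rw [one_div, ← div_eq_inv_mul, le_div_iff₀ hp]
      gcongr
  exact h1.trans (ioi_int (sd_cont hν hF) hS2 hS)

lemma int_sub {g : ℝ → ℝ} (h : IntervalIntegrable g volume 0 S) {σ : ℝ} (h0 : 0 ≤ σ)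
    (h1 : σ ≤ S) : IntervalIntegrable g volume 0 σ :=
  h.mono_set (by
    rw [uIcc_of_le h0, uIcc_of_le (h0.trans h1)]
    exact Icc_subset_Icc_right h1)

lemma c2 (hν : 0 < ν) (hF : ContinuousOn F (Ioi 0)) (hS : 0 < S) :
    ContinuousOn (fun r => sd ν F r * sp ν F S r) (Ioi 0) :=
  (sd_cont hν hF).mul (sp_cont hν hF hS)

lemma sc_hd (hν : 0 < ν) (hF : ContinuousOn F (Ioi 0)) (hS : 0 < S) (hA : Acc ν F S) {σ : ℝ}
    (hσ : 0 < σ) (hσS : σ ≤ S) : HasDerivAt (sc ν F) (sd ν F σ) σ :=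
  int_hd (sd_cont hν hF) (int_sub (sd_int hν hF hS hA) hσ.le hσS) hσ

lemma et_hd (hν : 0 < ν) (hF : ContinuousOn F (Ioi 0)) (hS : 0 < S) (hA : Acc ν F S) {σ : ℝ}
    (hσ : 0 < σ) (hσS : σ ≤ S) : HasDerivAt (et ν F S) (sd ν F σ * sp ν F S σ) σ :=
  int_hd (c2 hν hF hS) (int_sub hA hσ.le hσS) hσ

lemma prim_cont {g : ℝ → ℝ} (hS : 0 < S) (h : IntervalIntegrable g volume 0 S) :
    ContinuousOn (fun σ => ∫ r in (0 : ℝ)..σ, g r) (Icc 0 S) := by
  have h1 := intervalIntegral.continuousOn_primitive_interval (μ := volume) (f := g) (a := 0)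
    (b := S) (by rwa [intervalIntegrable_iff'] at h)
  rwa [uIcc_of_le hS.le] at h1

lemma sc_cont (hν : 0 < ν) (hF : ContinuousOn F (Ioi 0)) (hS : 0 < S) (hA : Acc ν F S) :
    ContinuousOn (sc ν F) (Icc 0 S) := prim_cont hS (sd_int hν hF hS hA)

lemma et_cont (hS : 0 < S) (hA : Acc ν F S) : ContinuousOn (et ν F S) (Icc 0 S) :=
  prim_cont hS hA

lemma sc_mono (hν : 0 < ν) (hF : ContinuousOn F (Ioi 0)) (hS : 0 < S) (hA : Acc ν F S)
    {σ σ' : ℝ} (h0 : 0 ≤ σ) (h1 : σ ≤ σ') (h2 : σ' ≤ S) : sc ν F σ ≤ sc ν F σ' := by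
  have hi := sd_int hν hF hS hA
  unfold sc
  have e := intervalIntegral.integral_add_adjacent_intervals (μ := volume) (a := 0) (b := σ)
    (c := σ') (int_sub hi h0 (h1.trans h2)) ((int_sub hi (h0.trans h1) h2).mono_set (by
      rw [uIcc_of_le h1, uIcc_of_le (h0.trans h1)]
      exact Icc_subset_Icc_left h0))
  have : 0 ≤ ∫ r in σ..σ', sd ν F r :=
    intervalIntegral.integral_nonneg h1 fun q _ => (sd_pos q).le
  linarith

lemma sc_nonneg {σ : ℝ} (h0 : 0 ≤ σ) : 0 ≤ sc ν F σ :=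
  intervalIntegral.integral_nonneg h0 fun q _ => (sd_pos q).le

lemma sc_pos (hν : 0 < ν) (hF : ContinuousOn F (Ioi 0)) (hS : 0 < S) (hA : Acc ν F S) {σ : ℝ}
    (h0 : 0 < σ) (h1 : σ ≤ S) : 0 < sc ν F σ :=
  intervalIntegral.intervalIntegral_pos_of_pos_on (int_sub (sd_int hν hF hS hA) h0.le h1)
    (fun q _ => sd_pos q) h0

lemma et_nonneg (hν : 0 < ν) {σ : ℝ} (h0 : 0 ≤ σ) (h1 : σ ≤ S) : 0 ≤ et ν F S σ := by
  unfold et
  rw [intervalIntegral.integral_of_le h0]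
  refine setIntegral_nonneg measurableSet_Ioc fun q hq => ?_
  exact mul_nonneg (sd_pos q).le (sp_nonneg hν hq.1 (hq.2.trans h1))

lemma et_mono (hν : 0 < ν) (hA : Acc ν F S) {σ σ' : ℝ} (h0 : 0 ≤ σ) (h1 : σ ≤ σ')
    (h2 : σ' ≤ S) : et ν F S σ ≤ et ν F S σ' := by
  unfold et
  have e := intervalIntegral.integral_add_adjacent_intervals (μ := volume) (a := 0) (b := σ)
    (c := σ') (int_sub hA h0 (h1.trans h2)) ((int_sub hA (h0.trans h1) h2).mono_set (by
      rw [uIcc_of_le h1, uIcc_of_le (h0.trans h1)]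
      exact Icc_subset_Icc_left h0))
  have : 0 ≤ ∫ r in σ..σ', sd ν F r * sp ν F S r := by
    rw [intervalIntegral.integral_of_le h1]
    refine setIntegral_nonneg measurableSet_Ioc fun q hq => ?_
    exact mul_nonneg (sd_pos q).le (sp_nonneg hν (h0.trans_lt hq.1) (hq.2.trans h2))
  linarith

lemma et_pos (hν : 0 < ν) (hF : ContinuousOn F (Ioi 0)) (hA : Acc ν F S) {σ : ℝ}
    (h0 : 0 < σ) (h1 : σ ≤ S) : 0 < et ν F S σ :=
  intervalIntegral.intervalIntegral_pos_of_pos_on (int_sub hA h0.le h1)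
    (fun q hq => mul_pos (sd_pos q) (sp_pos hν hF hq.1 (hq.2.trans_le h1))) h0

/-- The derivative of the spatial part of the barrier. -/
noncomputable def b1 (ν : ℝ) (F : ℝ → ℝ) (S a b σ : ℝ) : ℝ :=
  sd ν F σ * sp ν F S σ * a + sd ν F σ * b

/-- The second derivative. -/
noncomputable def b2 (ν : ℝ) (F : ℝ → ℝ) (S a b σ : ℝ) : ℝ :=
  (-(F σ / (2 * ν * σ)) * (sd ν F σ * sp ν F S σ) - 1 / (4 * ν * σ)) * a
    + -(F σ / (2 * ν * σ)) * sd ν F σ * b

lemma b0_hd (hν : 0 < ν) (hF : ContinuousOn F (Ioi 0)) (hS : 0 < S) (hA : Acc ν F S) (a b : ℝ)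
    {σ : ℝ} (hσ : 0 < σ) (hσS : σ ≤ S) :
    HasDerivAt (fun r => et ν F S r * a + sc ν F r * b) (b1 ν F S a b σ) σ :=
  ((et_hd hν hF hS hA hσ hσS).mul_const a).add ((sc_hd hν hF hS hA hσ hσS).mul_const b)

lemma b1_hd (hν : 0 < ν) (hF : ContinuousOn F (Ioi 0)) (hS : 0 < S) (a b : ℝ)
    {σ : ℝ} (hσ : 0 < σ) :
    HasDerivAt (b1 ν F S a b) (b2 ν F S a b σ) σ := by
  have h1 := sd_hd hν hF hσ
  have h2 := sp_hd hν hF hS hσ
  have h3 := ((h1.mul h2).mul_const a).add (h1.mul_const b)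
  refine h3.congr_deriv ?_
  unfold b2
  have := sd_pos (ν := ν) (F := F) σ
  field_simp
  ring

lemma b2_cont (hν : 0 < ν) (hF : ContinuousOn F (Ioi 0)) (hS : 0 < S) (a b : ℝ) :
    ContinuousOn (b2 ν F S a b) (Ioi 0) := by
  have h0 := c0 hν hF
  have h1 := sd_cont hν hF
  have h2 := sp_cont hν hF hS
  have h3 : ContinuousOn (fun σ : ℝ => 1 / (4 * ν * σ)) (Ioi 0) := by
    refine continuousOn_const.div (by fun_prop) fun q hq => ?_
    have : 0 < q := hq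
    positivity
  unfold b2
  exact (((h0.neg.mul (h1.mul h2)).sub h3).mul continuousOn_const).add
    ((h0.neg.mul h1).mul continuousOn_const)

/-- A function with a continuous second derivative. -/
lemma c2_of {f f₁ f₂ : ℝ → ℝ} {s : Set ℝ} (hs : IsOpen s) (h1 : ∀ x ∈ s, HasDerivAt f (f₁ x) x)
    (h2 : ∀ x ∈ s, HasDerivAt f₁ (f₂ x) x) (h3 : ContinuousOn f₂ s) : ContDiffOn ℝ 2 f s := by
  have e1 : EqOn (deriv f) f₁ s := fun x hx => (h1 x hx).deriv
  have e2 : EqOn (deriv f₁) f₂ s := fun x hx => (h2 x hx).deriv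
  have k1 : ContDiffOn ℝ 1 f₁ s := by
    rw [show (1 : WithTop ℕ∞) = 0 + 1 by norm_num, contDiffOn_succ_iff_deriv_of_isOpen hs]
    refine ⟨fun x hx => (h2 x hx).differentiableAt.differentiableWithinAt, by simp, ?_⟩
    rw [contDiffOn_zero]
    exact h3.congr e2
  rw [show (2 : WithTop ℕ∞) = 1 + 1 by norm_num, contDiffOn_succ_iff_deriv_of_isOpen hs]
  refine ⟨fun x hx => (h1 x hx).differentiableAt.differentiableWithinAt, by simp, ?_⟩
  exact k1.congr e1

end Pool.Agent.N264.FLR
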