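import Pool.Agent.TH305.AX.BVfin
import Pool.Agent.TH305.AX.BVgen
import Pool.Agent.N264.FLR.Scale

/-!
Axisymmetric flows: comparison of the circulation with the mean absorption time and the scale
function of a one-dimensional diffusion (helper264).
-/

set_option autoImplicit false

open MeasureTheory Set Metric Filter Topology
open scoped ContDiff

namespace Pool.Agent.N264.FLR

open H459R3.NS W221.NS Pool.Agent.TH305.DR Pool.Agent.TH305.AX

variable {ν T : ℝ} {u : ℝ → V → V} {p : ℝ → V → ℝ} {F : ℝ → ℝ} {S : ℝ}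

/-- The uncapped barrier. -/
noncomputable def br (ν : ℝ) (F : ℝ → ℝ) (S η t σ : ℝ) : ℝ :=
  et ν F S (min σ S) * (1 / (t + η)) + sc ν F (min σ S) * (1 / sc ν F S)

lemma br_nonneg (hν : 0 < ν) (hS : 0 < S) {η t σ : ℝ} (hη : 0 < η) (ht : 0 ≤ t) (hσ : 0 ≤ σ) :
    0 ≤ br ν F S η t σ := by
  unfold br
  have h1 : 0 ≤ min σ S := le_min hσ hS.le
  have h2 := et_nonneg (F := F) hν h1 (min_le_right σ S)
  have h3 := sc_nonneg (ν := ν) (F := F) h1
  have h4 := sc_nonneg (ν := ν) (F := F) hS.le
  have h5 : 0 < t + η := by linarith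
  positivity

lemma br_cont (hν : 0 < ν) (hF : ContinuousOn F (Ioi 0)) (hS : 0 < S) (hA : Acc ν F S) {η : ℝ}
    (hη : 0 < η) :
    ContinuousOn (fun z : ℝ × ℝ => br ν F S η z.1 z.2) (Ico 0 T ×ˢ Ici 0) := by
  unfold br
  have hm : ContinuousOn (fun z : ℝ × ℝ => min z.2 S) (Ico 0 T ×ˢ Ici 0) := by fun_prop
  have hmt : MapsTo (fun z : ℝ × ℝ => min z.2 S) (Ico 0 T ×ˢ Ici 0) (Icc 0 S) :=
    fun z hz => ⟨le_min hz.2 hS.le, min_le_right _ _⟩
  have h1 := (et_cont hS hA).comp hm hmt
  have h2 := (sc_cont hν hF hS hA).comp hm hmt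
  have h3 : ContinuousOn (fun z : ℝ × ℝ => 1 / (z.1 + η)) (Ico 0 T ×ˢ Ici 0) := by
    refine continuousOn_const.div (by fun_prop) fun z hz => ?_
    have : 0 ≤ z.1 := hz.1.1
    positivity
  exact (h1.mul h3).add (h2.mul continuousOn_const)

theorem bound_pos (hν : 0 < ν) (h : BSol ν T u p) {M δ : ℝ} (hδ : 0 < δ) (hS : 0 < S)
    (hF : ContinuousOn F (Ioi 0)) (hA : Acc ν F S) (hM : ∀ x, |circ (u 0) x| ≤ M)
    (hc : ∀ t ∈ Ioo 0 T, ∀ x, 0 < sg x → sg x < S → δ < |circ (u t) x| →
      -F (sg x) ≤ x 0 * u t x 0 + x 1 * u t x 1) :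
    ∀ t ∈ Ioo 0 T, ∀ x, sg x ≤ S →
      |circ (u t) x| ≤ δ + M * (et ν F S (sg x) / t + sc ν F (sg x) / sc ν F S) := by
  intro t ht x hx
  have hM0 : 0 ≤ M := (abs_nonneg _).trans (hM 0)
  have hT : 0 < T := ht.1.trans ht.2
  obtain ⟨U, hU0, hU⟩ := h.u_bdd hT
  obtain ⟨σ₀, hσ₀, hσ₀0, hσ₀S, hσ₀δ⟩ : ∃ σ₀ : ℝ, σ₀ = min S ((δ / (2 * (U + 1))) ^ 2) ∧ 0 < σ₀ ∧
      σ₀ ≤ S ∧ σ₀ ≤ (δ / (2 * (U + 1))) ^ 2 :=
    ⟨_, rfl, lt_min hS (by positivity), min_le_left _ _, min_le_right _ _⟩
  obtain ⟨η, hη⟩ : ∃ η : ℝ, η = et ν F S σ₀ := ⟨_, rfl⟩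
  have hη0 : 0 < η := by rw [hη]; exact et_pos hν hF hA hσ₀0 hσ₀S
  have hscS : 0 < sc ν F S := sc_pos hν hF hS hA hS le_rfl
  have key := cmpB hν h (A := M) (δ := δ) hM0 hδ
    (Φ := fun t σ => min 1 (br ν F S η t σ))
    (fun t ht σ hσ => le_min zero_le_one (br_nonneg hν hS hη0 ht.1 hσ))
    (continuous_min.comp_continuousOn (continuousOn_const.prodMk (br_cont hν hF hS hA hη0)))
    (fun y => by
      show |circ (u 0) y| ≤ δ + M * min 1 (br ν F S η 0 (sg y))
      have hsy := sg_nonneg y
      rcases le_total (sg y) σ₀ with h1 | h1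
      · have h2 : |circ (u 0) y| ≤ δ := by
          have h3 : √(sg y) ≤ δ / (2 * (U + 1)) := by
            rw [← Real.sqrt_sq (show 0 ≤ δ / (2 * (U + 1)) by positivity)]
            exact Real.sqrt_le_sqrt (h1.trans hσ₀δ)
          have h5 := hU 0 ⟨le_rfl, le_rfl⟩ y
          calc |circ (u 0) y| ≤ 2 * √(sg y) * ‖u 0 y‖ := circ_le _ _
            _ ≤ 2 * (δ / (2 * (U + 1))) * U := by gcongr
            _ ≤ 2 * (δ / (2 * (U + 1))) * (U + 1) := by
              gcongr
              linarith
            _ = δ := by field_simp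
        have h3 : 0 ≤ M * min 1 (br ν F S η 0 (sg y)) :=
          mul_nonneg hM0 (le_min zero_le_one (br_nonneg hν hS hη0 le_rfl hsy))
        linarith
      · have h2 : 1 ≤ br ν F S η 0 (sg y) := by
          unfold br
          have h3 : η ≤ et ν F S (min (sg y) S) := by
            rw [hη]
            exact et_mono hν hA hσ₀0.le (le_min h1 hσ₀S) (min_le_right _ _)
          have h4 : 0 ≤ sc ν F (min (sg y) S) := sc_nonneg (le_min hsy hS.le)
          have h5 : 1 ≤ et ν F S (min (sg y) S) * (1 / (0 + η)) := by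
            rw [zero_add, mul_one_div, le_div_iff₀ hη0, one_mul]
            exact h3
          have h6 : 0 ≤ sc ν F (min (sg y) S) * (1 / sc ν F S) := by positivity
          linarith
        rw [min_eq_left h2]
        have := hM y
        linarith)
    (fun s hs y hy hyd => by
      have hsη : 0 < s + η := by linarith [hs.1]
      rcases le_or_gt 1 (br ν F S η s (sg y)) with h1 | h1
      · refine ⟨fun _ => 1, fun _ => 0, 0, 0, fun _ => 1, ⟨contDiffAt_const, ?_, ?_, ?_, ?_, ?_, ?_,
          ?_⟩, ?_⟩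
        · exact Eventually.of_forall fun r => hasDerivAt_const r 1
        · exact hasDerivAt_const _ _
        · exact Eventually.of_forall fun r => min_le_left _ _
        · exact (min_eq_left h1).symm
        · exact Eventually.of_forall fun r => min_le_left _ _
        · exact (min_eq_left h1).symm
        · exact hasDerivAt_const _ _
        · simp
      · have hyS : sg y < S := by
          by_contra hcon
          push Not at hcon
          have h2 : 1 ≤ br ν F S η s (sg y) := by
            unfold br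
            rw [min_eq_right hcon]
            have h3 : 0 ≤ et ν F S S := et_nonneg hν hS.le le_rfl
            have h4 : sc ν F S * (1 / sc ν F S) = 1 := by field_simp
            rw [h4]
            have : 0 ≤ et ν F S S * (1 / (s + η)) := by positivity
            linarith
          linarith
        obtain ⟨a, ha⟩ : ∃ a : ℝ, a = 1 / (s + η) := ⟨_, rfl⟩
        obtain ⟨b, hb⟩ : ∃ b : ℝ, b = 1 / sc ν F S := ⟨_, rfl⟩
        have ha0 : 0 < a := by rw [ha]; positivity
        have hb0 : 0 < b := by rw [hb]; positivity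
        have hbr : ∀ r, r < S → br ν F S η s r = et ν F S r * a + sc ν F r * b := by
          intro r hr
          unfold br
          rw [min_eq_left hr.le, ha, hb]
        have hev : ∀ᶠ r in 𝓝 (sg y), 0 < r ∧ r < S :=
          (lt_mem_nhds hy).and (gt_mem_nhds hyS)
        refine ⟨fun r => et ν F S r * a + sc ν F r * b, b1 ν F S a b, b2 ν F S a b (sg y),
          -(et ν F S (sg y)) / (s + η) ^ 2,
          fun τ => et ν F S (sg y) * (1 / (τ + η)) + sc ν F (sg y) * b,
          ⟨?_, ?_, ?_, ?_, ?_, ?_, ?_, ?_⟩, ?_⟩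
        · have h2 : ContDiffOn ℝ 2 (fun r => et ν F S r * a + sc ν F r * b) (Ioo 0 S) :=
            c2_of isOpen_Ioo (fun r hr => b0_hd hν hF hS hA a b hr.1 hr.2.le)
              (fun r hr => b1_hd hν hF hS a b hr.1)
              ((b2_cont hν hF hS a b).mono fun r hr => hr.1)
          exact h2.contDiffAt (Ioo_mem_nhds hy hyS)
        · filter_upwards [hev] with r hr
          exact b0_hd hν hF hS hA a b hr.1 hr.2.le
        · exact b1_hd hν hF hS a b hy
        · filter_upwards [hev] with r hr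
          show min 1 (br ν F S η s r) ≤ _
          rw [hbr r hr.2]
          exact min_le_right _ _
        · show et ν F S (sg y) * a + sc ν F (sg y) * b = min 1 (br ν F S η s (sg y))
          rw [min_eq_right h1.le, hbr _ hyS]
        · refine Eventually.of_forall fun τ => ?_
          show min 1 (br ν F S η τ (sg y)) ≤ _
          refine (min_le_right _ _).trans (le_of_eq ?_)
          unfold br
          rw [min_eq_left hyS.le, hb]
        · show et ν F S (sg y) * (1 / (s + η)) + sc ν F (sg y) * b = min 1 (br ν F S η s (sg y))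
          rw [min_eq_right h1.le, hbr _ hyS, ha]
        · have h2 : HasDerivAt (fun τ : ℝ => 1 / (τ + η)) (-1 / (s + η) ^ 2) s := by
            have h3 := ((hasDerivAt_id s).add_const η).fun_inv hsη.ne'
            refine (h3.congr_of_eventuallyEq ?_)
            exact Eventually.of_forall fun τ => by simp
          have h3 := (h2.const_mul (et ν F S (sg y))).add_const (sc ν F (sg y) * b)
          refine h3.congr_deriv ?_
          ring
        · have hcond := hc s hs y hy hyS hyd
          obtain ⟨q, hq⟩ : ∃ q : ℝ, q = y 0 * u s y 0 + y 1 * u s y 1 := ⟨_, rfl⟩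
          rw [← hq] at hcond ⊢
          obtain ⟨σ, hσ⟩ : ∃ σ : ℝ, σ = sg y := ⟨_, rfl⟩
          rw [← hσ] at hcond hy hyS ⊢
          have e0 : et ν F S σ * a + sc ν F σ * b < 1 := by
            rw [← hbr σ hyS, hσ]
            exact h1
          have hsd := sd_pos (ν := ν) (F := F) σ
          have hsp := sp_nonneg (F := F) hν hy hyS.le
          have hb1 : 0 ≤ b1 ν F S a b σ := by unfold b1; positivity
          have h2 : 4 * ν * σ * b2 ν F S a b σ + 2 * F σ * b1 ν F S a b σ = -a := by
            unfold b2 b1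
            field_simp
            ring
          have h3 : 0 ≤ (q + F σ) * b1 ν F S a b σ := mul_nonneg (by linarith) hb1
          have h4 : et ν F S σ * a ≤ 1 := by
            have : 0 ≤ sc ν F σ * b := mul_nonneg (sc_nonneg hy.le) hb0.le
            linarith
          have h5 : -(et ν F S σ) / (s + η) ^ 2 = -(et ν F S σ * a) * a := by
            rw [ha]
            field_simp
          rw [h5]
          nlinarith)
    t ⟨ht.1.le, ht.2⟩ x
  have hsx := sg_nonneg x
  have h1 : min 1 (br ν F S η t (sg x)) ≤ et ν F S (sg x) / t + sc ν F (sg x) / sc ν F S := by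
    refine (min_le_right _ _).trans ?_
    unfold br
    rw [min_eq_left hx, mul_one_div, mul_one_div]
    have h2 : 0 ≤ et ν F S (sg x) := et_nonneg hν hsx hx
    have h3 : et ν F S (sg x) / (t + η) ≤ et ν F S (sg x) / t :=
      div_le_div_of_nonneg_left h2 ht.1 (by linarith)
    linarith
  have h2 := mul_le_mul_of_nonneg_left h1 hM0
  have h3 : |circ (u t) x| ≤ δ + M * min 1 (br ν F S η t (sg x)) := key
  linarith

/-- **Feller's test for the circulation.** -/
theorem bound (hν : 0 < ν) (h : BSol ν T u p) {M δ : ℝ} (hδ : 0 ≤ δ) (hS : 0 < S)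
    (hF : ContinuousOn F (Ioi 0)) (hA : Acc ν F S) (hM : ∀ x, |circ (u 0) x| ≤ M)
    (hc : ∀ t ∈ Ioo 0 T, ∀ x, 0 < sg x → sg x < S → δ < |circ (u t) x| →
      -F (sg x) ≤ x 0 * u t x 0 + x 1 * u t x 1) :
    ∀ t ∈ Ioo 0 T, ∀ x, sg x ≤ S →
      |circ (u t) x| ≤ δ + M * (et ν F S (sg x) / t + sc ν F (sg x) / sc ν F S) := by
  intro t ht x hx
  apply le_of_forall_pos_le_add
  intro ε hε
  have := bound_pos hν h (δ := δ + ε) (by linarith) hS hF hA hM
    (fun s hs y h1 h2 h3 => hc s hs y h1 h2 (by linarith)) t ht x hx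
  linarith

/-- Ancient solutions. -/
theorem liouville (hν : 0 < ν)
    (h : ∀ t₀ < 0, BSol ν (-t₀) (fun t => u (t₀ + t)) (fun t => p (t₀ + t))) {M : ℝ}
    (hM : ∀ t < 0, ∀ x, |circ (u t) x| ≤ M)
    (hc : ∀ δ > 0, ∃ F : ℝ → ℝ, ContinuousOn F (Ioi 0) ∧ (∀ S > 0, Acc ν F S) ∧
      Tendsto (sc ν F) atTop atTop ∧ ∀ t < 0, ∀ x, 0 < sg x → δ < |circ (u t) x| →
        -F (sg x) ≤ x 0 * u t x 0 + x 1 * u t x 1) :
    ∀ t < 0, ∀ x, circ (u t) x = 0 := by
  intro t ht x
  have hM0 : 0 ≤ M := (abs_nonneg _).trans (hM t ht x)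
  rw [← abs_nonpos_iff]
  apply le_of_forall_pos_le_add
  intro d hd
  rw [zero_add]
  obtain ⟨F, hF, hA, hsc, hcF⟩ := hc d hd
  have hsx := sg_nonneg x
  -- fixed outer radius
  have st1 : ∀ S > 0, sg x ≤ S → |circ (u t) x| ≤ d + M * (sc ν F (sg x) / sc ν F S) := by
    intro S hS hxS
    have hev : ∀ᶠ L : ℝ in atTop, |circ (u t) x| ≤
        d + M * (et ν F S (sg x) / L + sc ν F (sg x) / sc ν F S) := by
      filter_upwards [eventually_gt_atTop 0] with L hL
      have hB := h (t - L) (by linarith)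
      have e1 : -(t - L) = L - t := by ring
      rw [e1] at hB
      have h1 := bound hν hB (δ := d) hd.le hS hF (hA S hS)
        (fun y => by
          show |circ (u (t - L + 0)) y| ≤ M
          exact hM _ (by linarith) y)
        (fun s hs y hy _ hyd => hcF (t - L + s) (by linarith [hs.2]) y hy hyd)
        L ⟨hL, by linarith⟩ x hxS
      have e2 : t - L + L = t := by ring
      simp only [e2] at h1
      exact h1
    have hlim : Tendsto (fun L : ℝ => d + M * (et ν F S (sg x) / L + sc ν F (sg x) / sc ν F S))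
        atTop (𝓝 (d + M * (0 + sc ν F (sg x) / sc ν F S))) :=
      ((((tendsto_const_nhds (x := et ν F S (sg x))).div_atTop tendsto_id).add_const _).const_mul
        M).const_add d
    rw [zero_add] at hlim
    exact ge_of_tendsto hlim hev
  have hlim : Tendsto (fun S : ℝ => d + M * (sc ν F (sg x) / sc ν F S)) atTop
      (𝓝 (d + M * 0)) :=
    (((tendsto_const_nhds (x := sc ν F (sg x))).div_atTop hsc).const_mul M).const_add d
  rw [mul_zero, add_zero] at hlim
  refine ge_of_tendsto hlim ?_
  filter_upwards [eventually_gt_atTop 0, eventually_ge_atTop (sg x)] with S hS hxS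
  exact st1 S hS hxS

end Pool.Agent.N264.FLR
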